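import Pool.Agent.helper11.TX.Spec

/-! Row tx:CN: the number of x on the line b y - a x = c. -/

set_option autoImplicit false

namespace Pool.Agent.helper11.TX

open Finset Pool.Agent.helper85.FC

/-- The local function. -/
noncomputable def CN_f (a b : ℕ) (x₀ y₀ : ℤ) (l : ℕ) (k : ℤ) : ℝ :=
  if ¬ (l : ℤ) ∣ x₀ + b * k ∧ ¬ (l : ℤ) ∣ y₀ + a * k then 1 else 0

lemma CN_f_nonneg (a b : ℕ) (x₀ y₀ : ℤ) (l : ℕ) (k : ℤ) : 0 ≤ CN_f a b x₀ y₀ l k := by
  unfold CN_f
  split_ifs <;> norm_num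

lemma CN_f_per (a b : ℕ) (x₀ y₀ : ℤ) (l : ℕ) (c k : ℤ) :
    CN_f a b x₀ y₀ l (c + l * k) = CN_f a b x₀ y₀ l c := by
  have h1 : (l : ℤ) ∣ x₀ + b * (c + l * k) ↔ (l : ℤ) ∣ x₀ + b * c := by
    have : x₀ + b * (c + l * k) = (x₀ + b * c) + l * (b * k) := by ring
    rw [this, dvd_add_left (Dvd.intro _ rfl)]
  have h2 : (l : ℤ) ∣ y₀ + a * (c + l * k) ↔ (l : ℤ) ∣ y₀ + a * c := by
    have : y₀ + a * (c + l * k) = (y₀ + a * c) + l * (a * k) := by ring
    rw [this, dvd_add_left (Dvd.intro _ rfl)]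
  unfold CN_f
  simp only [h1, h2]

lemma CN_root {l b : ℕ} (hl : l.Prime) (hb : ¬ l ∣ b) (x₀ : ℤ) :
    ∃ r ∈ range l, (l : ℤ) ∣ x₀ + b * (r : ℤ) := by
  have hl0 : (0 : ℤ) < l := by exact_mod_cast hl.pos
  have hcop : IsCoprime (b : ℤ) (l : ℤ) := by
    rw [Nat.isCoprime_iff_coprime]
    exact ((Nat.Prime.coprime_iff_not_dvd hl).2 hb).symm
  obtain ⟨s, t, hst⟩ := hcop
  have hr0 : 0 ≤ (-x₀ * s) % (l : ℤ) := Int.emod_nonneg _ hl0.ne'
  have hr1 : (-x₀ * s) % (l : ℤ) < l := Int.emod_lt_of_pos _ hl0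
  refine ⟨((-x₀ * s) % (l : ℤ)).toNat, ?_, ?_⟩
  · rw [mem_range]
    omega
  · rw [Int.toNat_of_nonneg hr0]
    have h1 : (l : ℤ) ∣ (-x₀ * s) - (-x₀ * s) % (l : ℤ) := Int.dvd_self_sub_emod
    have h2 : x₀ + b * ((-x₀ * s) % (l : ℤ)) =
        l * (x₀ * t) - b * ((-x₀ * s) - (-x₀ * s) % (l : ℤ)) := by
      have : x₀ = x₀ * (s * b + t * l) := by rw [hst, mul_one]
      linear_combination this
    rw [h2]
    exact dvd_sub (Dvd.intro _ rfl) (Dvd.dvd.mul_left h1 _)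

lemma CN_count {l a b : ℕ} {c x₀ y₀ : ℤ} (hl : l.Prime) (hab : Nat.Coprime a b)
    (h0 : b * y₀ - a * x₀ = c) :
    ∑ r ∈ range l, CN_f a b x₀ y₀ l r ≤
      l * (if (l : ℤ) ∣ a * b * c then 1 - 1 / (l : ℝ) else 1 - 2 / (l : ℝ)) := by
  classical
  have hl0 : (0 : ℝ) < l := by exact_mod_cast hl.pos
  have hlp : Prime (l : ℤ) := Nat.prime_iff_prime_int.1 hl
  set B : Finset ℕ := (range l).filter fun r : ℕ => (l : ℤ) ∣ x₀ + b * (r : ℤ) ∨
    (l : ℤ) ∣ y₀ + a * (r : ℤ) with hB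
  have hsum : ∑ r ∈ range l, CN_f a b x₀ y₀ l r = (l : ℝ) - (#B : ℝ) := by
    have h1 : ∀ r ∈ range l, CN_f a b x₀ y₀ l r =
        1 - (if (l : ℤ) ∣ x₀ + b * (r : ℤ) ∨ (l : ℤ) ∣ y₀ + a * (r : ℤ) then (1 : ℝ) else 0) := by
      intro r _
      unfold CN_f
      by_cases h1 : (l : ℤ) ∣ x₀ + b * (r : ℤ) <;> by_cases h2 : (l : ℤ) ∣ y₀ + a * (r : ℤ) <;>
        simp [h1, h2]
    rw [Finset.sum_congr rfl h1, Finset.sum_sub_distrib, Finset.sum_const, card_range,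
      nsmul_eq_mul, mul_one, hB, Finset.card_filter]
    push_cast
    rfl
  rw [hsum]
  have hroot1 : ¬ l ∣ b → ∃ r ∈ range l, (l : ℤ) ∣ x₀ + b * (r : ℤ) := fun h => CN_root hl h x₀
  have hroot2 : ¬ l ∣ a → ∃ r ∈ range l, (l : ℤ) ∣ y₀ + a * (r : ℤ) := fun h => CN_root hl h y₀
  split_ifs with hdiv
  · have h1 : 1 ≤ #B := by
      rw [Nat.succ_le_iff, Finset.card_pos]
      by_cases hb : l ∣ b
      · have ha : ¬ l ∣ a := fun ha => by
          have := Nat.dvd_gcd ha hb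
          rw [hab] at this
          exact hl.one_lt.ne' (Nat.dvd_one.1 this)
        obtain ⟨r, hr, hr'⟩ := hroot2 ha
        exact ⟨r, Finset.mem_filter.2 ⟨hr, Or.inr hr'⟩⟩
      · obtain ⟨r, hr, hr'⟩ := hroot1 hb
        exact ⟨r, Finset.mem_filter.2 ⟨hr, Or.inl hr'⟩⟩
    have h2 : (1 : ℝ) ≤ (#B : ℝ) := by exact_mod_cast h1
    have h3 : (l : ℝ) * (1 - 1 / (l : ℝ)) = l - 1 := by field_simp
    rw [h3]
    linarith
  · have hb : ¬ l ∣ b := fun h => hdiv (by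
      have : (l : ℤ) ∣ (b : ℤ) := Int.natCast_dvd_natCast.2 h
      exact Dvd.dvd.mul_right (Dvd.dvd.mul_left this _) _)
    have ha : ¬ l ∣ a := fun h => hdiv (by
      have : (l : ℤ) ∣ (a : ℤ) := Int.natCast_dvd_natCast.2 h
      exact Dvd.dvd.mul_right (Dvd.dvd.mul_right this _) _)
    have hc : ¬ (l : ℤ) ∣ c := fun h => hdiv (Dvd.dvd.mul_left h _)
    obtain ⟨r1, hr1, hr1'⟩ := hroot1 hb
    obtain ⟨r2, hr2, hr2'⟩ := hroot2 ha
    have hne : r1 ≠ r2 := by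
      rintro rfl
      refine hc ?_
      have : c = b * (y₀ + a * (r1 : ℤ)) - a * (x₀ + b * (r1 : ℤ)) := by rw [← h0]; ring
      rw [this]
      exact dvd_sub (Dvd.dvd.mul_left hr2' _) (Dvd.dvd.mul_left hr1' _)
    have h1 : 2 ≤ #B := by
      have hsub : ({r1, r2} : Finset ℕ) ⊆ B := by
        intro r hr
        rw [Finset.mem_insert, Finset.mem_singleton] at hr
        rcases hr with rfl | rfl
        · exact Finset.mem_filter.2 ⟨hr1, Or.inl hr1'⟩
        · exact Finset.mem_filter.2 ⟨hr2, Or.inr hr2'⟩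
      calc 2 = #({r1, r2} : Finset ℕ) := (Finset.card_pair hne).symm
        _ ≤ #B := Finset.card_le_card hsub
    have h2 : (2 : ℝ) ≤ (#B : ℝ) := by exact_mod_cast h1
    have h3 : (l : ℝ) * (1 - 2 / (l : ℝ)) = l - 2 := by field_simp
    rw [h3]
    linarith

lemma CN_Lam_nonneg (W a b : ℕ) (c : ℤ) : 0 ≤ Lam W a b c := by
  unfold Lam
  refine Finset.prod_nonneg fun l hl => ?_
  have h2 : (2 : ℝ) ≤ l := by exact_mod_cast (Nat.prime_of_mem_primeFactors hl).two_le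
  have hl0 : (0 : ℝ) < l := by linarith
  split_ifs
  · rw [sub_nonneg, div_le_one hl0]
    linarith
  · rw [sub_nonneg, div_le_one hl0]
    exact h2

theorem CN (h : CR_stmt) : CN_stmt := by
  classical
  intro W a b c hW ha hb hab _ _ u M
  have hLam := CN_Lam_nonneg W a b c
  have hb0 : (0 : ℝ) < b := by exact_mod_cast hb
  have hbZ : (0 : ℤ) < b := by exact_mod_cast hb
  have hW1 : (1 : ℝ) ≤ W := by exact_mod_cast hW
  set S := {x ∈ Ioc u (u + M) | IsCoprime x (W : ℤ) ∧ ∃ y : ℤ, b * y - a * x = c ∧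
    IsCoprime y (W : ℤ)} with hS
  rcases S.eq_empty_or_nonempty with hemp | ⟨x₀, hx₀⟩
  · rw [hemp, Finset.card_empty, Nat.cast_zero]
    positivity
  obtain ⟨_, _, y₀, h0, _⟩ := Finset.mem_filter.1 hx₀
  set P := W.primeFactors with hP
  have hprime : ∀ l ∈ P, l.Prime := fun l hl => Nat.prime_of_mem_primeFactors hl
  set u' : ℤ := (u - x₀) / b with hu'
  set v' : ℤ := (u + M - x₀) / b with hv'
  have huv : u' ≤ v' := Int.ediv_le_ediv hbZ (by omega)
  set L : ℕ := (v' - u').toNat with hL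
  have hLZ : u' + (L : ℤ) = v' := by omega
  have hLb : (L : ℝ) ≤ (M : ℝ) / b + 1 := by
    have h1 : (b : ℤ) * v' ≤ u + M - x₀ := Int.mul_ediv_self_le hbZ.ne'
    have h2 : u - x₀ < b * u' + b := by
      have := Int.lt_mul_ediv_self_add (x := u - x₀) hbZ
      simpa [hu'] using this
    have h3 : (b : ℤ) * L < M + b := by
      have : (L : ℤ) = v' - u' := by omega
      rw [this]
      nlinarith
    have h4 : (b : ℝ) * L < M + b := by exact_mod_cast h3
    have h5 : (L : ℝ) < (M : ℝ) / b + 1 := by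
      have : (M : ℝ) / b + 1 = (M + b) / b := by field_simp
      rw [this, lt_div_iff₀ hb0, mul_comm]
      exact h4
    exact h5.le
  have hcount : (#S : ℝ) ≤ ∑ k ∈ Ioc u' (u' + L), ∏ l ∈ P, CN_f a b x₀ y₀ l k := by
    set T := (Ioc u' (u' + L)).filter fun k : ℤ => ∀ l ∈ P, ¬ (l : ℤ) ∣ x₀ + b * k ∧
      ¬ (l : ℤ) ∣ y₀ + a * k with hT
    have hprod : ∀ k ∈ Ioc u' (u' + L), (if ∀ l ∈ P, ¬ (l : ℤ) ∣ x₀ + b * k ∧
        ¬ (l : ℤ) ∣ y₀ + a * k then (1 : ℝ) else 0) ≤ ∏ l ∈ P, CN_f a b x₀ y₀ l k := by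
      intro k _
      split_ifs with hk
      · rw [Finset.prod_eq_one]
        intro l hl
        unfold CN_f
        rw [if_pos (hk l hl)]
      · exact Finset.prod_nonneg fun l _ => CN_f_nonneg a b x₀ y₀ l k
    refine le_trans ?_ (Finset.sum_le_sum hprod)
    rw [← Finset.sum_filter, Finset.sum_const, nsmul_eq_mul, mul_one]
    rw [← hT]
    have hST : #S ≤ #T := by
      refine Finset.card_le_card_of_injOn (fun x => (x - x₀) / b) ?_ ?_
      · intro x hx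
        obtain ⟨hx1, hx2, y, hy, hy2⟩ := Finset.mem_filter.1 (Finset.mem_coe.1 hx)
        rw [mem_Ioc] at hx1
        have hdiv : (b : ℤ) ∣ x - x₀ := by
          have h1 : (b : ℤ) ∣ a * (x - x₀) := ⟨y - y₀, by linear_combination h0 - hy⟩
          exact (Nat.isCoprime_iff_coprime.2 hab).symm.dvd_of_dvd_mul_left h1
        obtain ⟨k, hk⟩ := hdiv
        have hk' : (x - x₀) / b = k := by rw [hk, Int.mul_ediv_cancel_left _ hbZ.ne']
        have hxk : x₀ + b * k = x := by rw [← hk]; ring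
        have hyk : y₀ + a * k = y := by
          have : (b : ℤ) * (y₀ + a * k) = b * y := by
            linear_combination h0 - hy + a * hxk
          exact mul_left_cancel₀ hbZ.ne' this
        refine Finset.mem_coe.2 (Finset.mem_filter.2 ⟨?_, ?_⟩)
        · simp only [hk']
          rw [mem_Ioc, hLZ]
          constructor
          · rw [hu', Int.ediv_lt_iff_lt_mul hbZ]
            nlinarith
          · rw [hv', Int.le_ediv_iff_mul_le hbZ]
            nlinarith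
        · simp only [hk']
          intro l hl
          have hlW : (l : ℤ) ∣ (W : ℤ) := Int.natCast_dvd_natCast.2 (Nat.dvd_of_mem_primeFactors hl)
          have hlp : Prime (l : ℤ) := Nat.prime_iff_prime_int.1 (hprime l hl)
          rw [hxk, hyk]
          exact ⟨fun h => hlp.not_isUnit (hx2.isUnit_of_dvd' h hlW),
            fun h => hlp.not_isUnit (hy2.isUnit_of_dvd' h hlW)⟩
      · intro x hx x' hx' hxx'
        have key : ∀ z ∈ S, (b : ℤ) ∣ z - x₀ := by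
          intro z hz
          obtain ⟨_, _, y, hy, _⟩ := Finset.mem_filter.1 hz
          have h1 : (b : ℤ) ∣ a * (z - x₀) := ⟨y - y₀, by linear_combination h0 - hy⟩
          exact (Nat.isCoprime_iff_coprime.2 hab).symm.dvd_of_dvd_mul_left h1
        obtain ⟨k, hk⟩ := key x (Finset.mem_coe.1 hx)
        obtain ⟨k', hk'⟩ := key x' (Finset.mem_coe.1 hx')
        have e : (x - x₀) / (b : ℤ) = (x' - x₀) / (b : ℤ) := hxx'
        rw [hk, hk', Int.mul_ediv_cancel_left _ hbZ.ne', Int.mul_ediv_cancel_left _ hbZ.ne'] at e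
        rw [e] at hk
        linarith
    exact_mod_cast hST
  have hCR := (h P (CN_f a b x₀ y₀) hprime (fun l _ c => CN_f_nonneg a b x₀ y₀ l c)
    (fun l _ c k => CN_f_per a b x₀ y₀ l c k) u' L).1
  set D : ℝ := ∏ l ∈ P, (l : ℝ) with hD
  have hDpos : 0 < D := Finset.prod_pos fun l hl => by exact_mod_cast (hprime l hl).pos
  have hDW : D ≤ W := by
    have h1 : ∏ l ∈ P, l ≤ W := Nat.le_of_dvd hW (Nat.prod_primeFactors_dvd W)
    have h2 : D = ((∏ l ∈ P, l : ℕ) : ℝ) := by rw [hD]; push_cast; rfl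
    rw [h2]
    exact_mod_cast h1
  have hprod : ∏ l ∈ P, ∑ r ∈ range l, CN_f a b x₀ y₀ l r ≤ D * Lam W a b c := by
    rw [hD, Lam, ← Finset.prod_mul_distrib]
    refine Finset.prod_le_prod (fun l _ => Finset.sum_nonneg fun r _ => CN_f_nonneg _ _ _ _ _ _)
      fun l hl => CN_count (hprime l hl) hab h0
  calc (#S : ℝ) ≤ ((L : ℝ) / D + 1) * ∏ l ∈ P, ∑ r ∈ range l, CN_f a b x₀ y₀ l r :=
        hcount.trans hCR
    _ ≤ ((L : ℝ) / D + 1) * (D * Lam W a b c) :=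
        mul_le_mul_of_nonneg_left hprod (by positivity)
    _ = ((L : ℝ) + D) * Lam W a b c := by field_simp
    _ ≤ ((M : ℝ) / b + 2 * W) * Lam W a b c :=
        mul_le_mul_of_nonneg_right (by linarith) hLam

end Pool.Agent.helper11.TX
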